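import Pool.Agent.TH215.CI.W2
import Pool.Agent.TH215.CI.Res

/-!
# Tor-rigidity fails over local complete intersections

Let `k` be a field, `R` the local ring at the origin of the ring
`k[a, b, c, u, v] / (a v - b u, b v - c u)`, a complete intersection of dimension three, and let `W` be
the quotient of `R³` by `(a, b, c)` and `(u², u v, v²)`. Then `W` is locally free of rank two on the
punctured spectrum, `[W] = 2 [R]` in the Grothendieck group, `Tor_1(W, W) = 0` and
`Tor_2(W, W) ≠ 0`.
-/

set_option autoImplicit false

open CategoryTheory CategoryTheory.Limits IsLocalRing Pool.Agent.TH215.CI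

namespace Pool.Agent.Results.MP_7385e8_ag.NotTorRigid

/-- `N` is locally free of constant rank `r` on the punctured spectrum of `R`: `N_p` is free of
rank `r` over `R_p` for every prime `p` other than the maximal ideal. -/
def LocFreeOfRank (R : Type) [CommRing R] [IsLocalRing R] (N : Type) [AddCommGroup N] [Module R N]
    (r : ℕ) : Prop :=
  ∀ (p : Ideal R) [p.IsPrime], p ≠ maximalIdeal R →
    Nonempty (LocalizedModule p.primeCompl N ≃ₗ[Localization.AtPrime p]
      (Fin r → Localization.AtPrime p))

/-- `Tor_i(M, N) = 0` over `R`. -/
def TorVanishes (R : Type) [CommRing R] (i : ℕ) (M N : Type) [AddCommGroup M] [Module R M]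
    [AddCommGroup N] [Module R N] : Prop :=
  IsZero (((Tor (ModuleCat.{0} R) i).obj (ModuleCat.of R M)).obj (ModuleCat.of R N))

/-- The pair `(M, N)` is Tor-rigid: for every `i > 0`, `Tor_i(M, N) = 0` implies `Tor_j(M, N) = 0`
for all `j ≥ i`. -/
def IsTorRigid (R : Type) [CommRing R] (M N : Type) [AddCommGroup M] [Module R M]
    [AddCommGroup N] [Module R N] : Prop :=
  ∀ i : ℕ, 0 < i → TorVanishes R i M N → ∀ j : ℕ, i ≤ j → TorVanishes R j M N

/-- `(M, M)` is a counterexample over `R`: `M` is locally free of constant rank two on the
punctured spectrum, its class in the reduced Grothendieck group with rational coefficients is zero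
(in fact `[M] = 2 [R]` in the Grothendieck group), `Tor_1(M, M) = 0` and `Tor_2(M, M) ≠ 0`. -/
structure IsCounterexample (R : Type) [CommRing R] [IsLocalRing R] (M : Type) [AddCommGroup M]
    [Module R M] [Module.Finite R M] : Prop where
  locFree : LocFreeOfRank R M 2
  cls : gCls R M = 2 • gCls R R
  clsRedQ : gRedQ R M = 0
  tor_one : TorVanishes R 1 M M
  tor_two : ¬ TorVanishes R 2 M M
  not_rigid : ¬ IsTorRigid R M M

/-- For every field `k` there are a complete intersection local ring `R` of dimension three with
coefficient field `k` and a finitely generated `R`-module `M`, locally free of constant rank on the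
punctured spectrum, whose class in the reduced Grothendieck group with rational coefficients
is zero, such that `Tor_1(M, M) = 0` and `Tor_2(M, M) ≠ 0`; so the pair `(M, M)` is not
Tor-rigid. -/
theorem result (k : Type) [Field k] :
    ∃ (R : Type) (_ : CommRing R) (_ : IsLocalRing R) (_ : IsNoetherianRing R) (f : k →+* R),
      Function.Bijective ((residue R).comp f) ∧ IsLocalCI R ∧ ringKrullDim R = 3 ∧
      ∃ (M : Type) (_ : AddCommGroup M) (_ : Module R M) (_ : Module.Finite R M),
        IsCounterexample R M := by
  obtain ⟨hci, hdim⟩ := ci_equiv k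
  refine ⟨RL k, inferInstance, inferInstance, inferInstance, (ι k).comp (kT k), residue_bij k,
    hci, hdim, WR k, inferInstance, inferInstance, inferInstance, ?_, W_cls k,
    gRedQ_eq_zero' 2 (W_cls k), W_tor1 k, W_tor2 k, ?_⟩
  · intro p _ hp
    exact W_loc_free k p hp
  · intro h
    exact W_tor2 k (h 1 one_pos (W_tor1 k) 2 one_le_two)

end Pool.Agent.Results.MP_7385e8_ag.NotTorRigid
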